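import Pool.Agent.H.MP_b39e30_al.A

set_option autoImplicit false

namespace Pool.Agent.H.MP_9682d1_al

open Subgroup Matrix Pool.Agent.H.MP_b39e30_al
open scoped commutatorElement Pointwise

def mu : ℕ → ℕ → ℕ → ℕ
  | 0, a, b => a % 2 * (b % 2)
  | n + 1, a, b => mu n a b + 2 ^ 2 ^ n * (mu n a (b / 2 ^ 2 ^ n) ^^^ mu n (a / 2 ^ 2 ^ n) b)

variable {R : Type} [CommRing R]

def ev (e : ℕ → R) : ℕ → ℕ → R
  | 0, a => ((a % 2 : ℕ) : R)
  | n + 1, a => ev e n a + e n * ev e n (a / 2 ^ 2 ^ n)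

theorem mu_lt (n : ℕ) : ∀ a b, mu n a b < 2 ^ 2 ^ n := by
  induction n with
  | zero =>
    intro a b
    rcases Nat.mod_two_eq_zero_or_one a with h | h <;> rcases Nat.mod_two_eq_zero_or_one b with
      h' | h' <;> simp [mu, h, h']
  | succ n ih =>
    intro a b
    have h1 := ih a b
    have h2 := Nat.xor_lt_two_pow (ih a (b / 2 ^ 2 ^ n)) (ih (a / 2 ^ 2 ^ n) b)
    rw [mu, pow_succ 2 n, pow_mul, pow_two]
    nlinarith

theorem ev_xor (e : ℕ → R) (h2 : (1 : R) + 1 = 0) (n : ℕ) :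
    ∀ a b, ev e n (a ^^^ b) = ev e n a + ev e n b := by
  induction n with
  | zero =>
    intro a b
    have := Nat.xor_mod_two_pow (a := a) (b := b) (n := 1)
    rw [pow_one] at this
    simp only [ev, this]
    rcases Nat.mod_two_eq_zero_or_one a with h | h <;> rcases Nat.mod_two_eq_zero_or_one b with
      h' | h' <;> simp [h, h', h2]
  | succ n ih =>
    intro a b
    simp only [ev, Nat.xor_div_two_pow, ih]
    ring

theorem ev_add (e : ℕ → R) (n : ℕ) : ∀ m, 2 ^ n ≤ m → ∀ c d, ev e n (c + 2 ^ m * d) = ev e n c := by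
  induction n with
  | zero =>
    intro m hm c d
    obtain ⟨m, rfl⟩ := Nat.exists_eq_add_of_le hm
    simp only [ev, pow_zero, pow_add, pow_one, mul_assoc, Nat.add_mul_mod_self_left]
  | succ n ih =>
    intro m hm c d
    obtain ⟨m, rfl⟩ := Nat.exists_eq_add_of_le hm
    have e1 : 2 ^ (2 ^ (n + 1) + m) * d = 2 ^ 2 ^ n * (2 ^ (2 ^ n + m) * d) := by
      rw [pow_succ 2 n]; ring
    simp only [ev]
    rw [ih _ (by rw [pow_succ]; omega), e1, Nat.add_mul_div_left _ _ (by positivity),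
      ih _ (by omega)]

theorem ev_mu (e : ℕ → R) (h2 : (1 : R) + 1 = 0) (n : ℕ) (he : ∀ i < n, e i * e i = 0) :
    ∀ a b, ev e n (mu n a b) = ev e n a * ev e n b := by
  induction n with
  | zero =>
    intro a b
    rcases Nat.mod_two_eq_zero_or_one a with h | h <;> rcases Nat.mod_two_eq_zero_or_one b with
      h' | h' <;> simp [mu, ev, h, h']
  | succ n ih =>
    intro a b
    have ih := ih fun i hi => he i (by omega)
    simp only [ev, mu]
    rw [ev_add e n _ le_rfl, Nat.add_mul_div_left _ _ (by positivity),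
      Nat.div_eq_of_lt (mu_lt n a b), zero_add, ev_xor e h2, ih, ih, ih]
    linear_combination (-(ev e n (a / 2 ^ 2 ^ n) * ev e n (b / 2 ^ 2 ^ n))) * he n (by omega)

structure M9 where
  (a b c d e f g h i : ℕ)
deriving DecidableEq

def dot (a b c x y z : ℕ) : ℕ := mu 6 a x ^^^ mu 6 b y ^^^ mu 6 c z

def M9.mul (A B : M9) : M9 :=
  ⟨dot A.a A.b A.c B.a B.d B.g, dot A.a A.b A.c B.b B.e B.h, dot A.a A.b A.c B.c B.f B.i,
   dot A.d A.e A.f B.a B.d B.g, dot A.d A.e A.f B.b B.e B.h, dot A.d A.e A.f B.c B.f B.i,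
   dot A.g A.h A.i B.a B.d B.g, dot A.g A.h A.i B.b B.e B.h, dot A.g A.h A.i B.c B.f B.i⟩

def M9.tr (A : M9) : M9 := ⟨A.a, A.d, A.g, A.b, A.e, A.h, A.c, A.f, A.i⟩

def M9.cm (g a : M9) : M9 := (g.mul a).tr.mul (a.mul g)

def em (e : ℕ → R) (A : M9) : Mt R :=
  !![ev e 6 A.a, ev e 6 A.b, ev e 6 A.c; ev e 6 A.d, ev e 6 A.e, ev e 6 A.f;
    ev e 6 A.g, ev e 6 A.h, ev e 6 A.i]

theorem em_mul (e : ℕ → R) (h2 : (1 : R) + 1 = 0) (he : ∀ i < 6, e i * e i = 0) (A B : M9) :
    em e (A.mul B) = em e A * em e B := by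
  simp only [em, M9.mul, dot, ev_xor e h2, ev_mu e h2 6 he, Matrix.mul_fin_three]

theorem em_tr (e : ℕ → R) (A : M9) : em e A.tr = (em e A)ᵀ := by
  ext i j
  fin_cases i <;> fin_cases j <;> rfl

def hh : M9 := ⟨3, 256, 65536, 844424930135808, 5, 4294967296, 280375468425216, 365357432832, 17⟩
def sw : M9 := ⟨0, 1, 0, 1, 0, 0, 0, 0, 1⟩
def xh : M9 := ⟨844424930135808, 5, 4294967296, 3, 256, 65536, 280375468425216, 365357432832, 17⟩
def id9 : M9 := ⟨1, 0, 0, 0, 1, 0, 0, 0, 1⟩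
def sy (a b c d : ℕ) : M9 := ⟨a, b, c, b, a, d, c, d, 1⟩
def c1 : M9 := ⟨220394906764443663, 0, 1121003569152, 0, 220394906764443663, 16505811173376,
  16505811173376, 1121003569152, 1⟩

theorem k1 : hh.cm sw = c1 ∧ hh.cm c1 = sy 17178980778604756993 0 113328769990656 113328769990656 ∧
    hh.cm (sy 17178980778604756993 0 113328769990656 113328769990656) =
      sy 1 17178417828651335680 250085376 16389595201536 ∧
    hh.cm (sy 1 17178417828651335680 250085376 16389595201536) =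
      sy 1 0 114350954119168 114350954119168 ∧
    hh.cm (sy 1 0 114350954119168 114350954119168) = id9 := by decide +kernel

theorem k2 : sw.mul hh = xh ∧ xh.cm sw = c1 ∧
    xh.cm c1 = sy 17178980778604756993 0 114333807411200 114333807411200 ∧
    xh.cm (sy 17178980778604756993 0 114333807411200 114333807411200) =
      sy 1 17178417828651335680 16389595201536 250085376 ∧
    xh.cm (sy 1 17178417828651335680 16389595201536 250085376) =
      sy 1 0 113148344926208 113148344926208 ∧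
    xh.cm (sy 1 0 113148344926208 113148344926208) = id9 := by decide +kernel

end Pool.Agent.H.MP_9682d1_al
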