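import Pool.Agent.H.MP_9682d1_al.A

set_option autoImplicit false

namespace Pool.Agent.H.MP_9682d1_al

open Subgroup Matrix Pool.Agent.H.MP_b39e30_al
open scoped commutatorElement Pointwise

variable {R : Type} [CommRing R]

theorem k0 : hh.tr.mul hh = id9 := by decide +kernel

theorem em_id (e : ℕ → R) : em e id9 = 1 := by
  ext i j
  fin_cases i <;> fin_cases j <;> simp [em, id9, ev]

def X (R : Type) [CommRing R] : Mt R := !![0, 1, 0; 1, 0, 0; 0, 0, 1]

theorem em_sw (e : ℕ → R) : em e sw = X R := by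
  ext i j
  fin_cases i <;> fin_cases j <;> simp [em, sw, ev, X]

theorem uniq {A B : Mt R} (hA : Aᵀ * A = 1) (hB : Bᵀ * B = 1) (h00 : A 0 0 = B 0 0)
    (h01 : A 0 1 = B 0 1) (h02 : A 0 2 = B 0 2) (h11 : A 1 1 = B 1 1) (h12 : A 1 2 = B 1 2)
    (h22 : A 2 2 = B 2 2) (h2 : (1 : R) + 1 = 0) (s1 : B 1 1 * B 1 1 = 1) (s2 : B 2 2 * B 2 2 = 1)
    (s3 : B 1 2 * B 1 2 = 0) : A = B := by
  have a := fun i j => congrFun (congrFun (hA.trans hB.symm) i) j
  have a1 := a 1 2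
  have a2 := a 0 2
  have a3 := a 0 1
  simp only [Matrix.mul_apply, Fin.sum_univ_three, transpose_apply, h00, h01, h02, h11, h12,
    h22] at a1 a2 a3
  have h21 : A 2 1 = B 2 1 := by linear_combination B 2 2 * a1 - (A 2 1 - B 2 1) * s2
  rw [h21] at a3
  have h20 : A 2 0 - B 2 0 = -((A 1 0 - B 1 0) * B 1 2 * B 2 2) := by
    linear_combination B 2 2 * a2 - (A 2 0 - B 2 0) * s2
  have h10 : A 1 0 = B 1 0 := by
    have : (A 1 0 - B 1 0) * (B 1 1 - B 1 2 * B 2 2 * B 2 1) = 0 := by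
      linear_combination a3 - B 2 1 * h20
    linear_combination (B 1 1 + B 1 2 * B 2 2 * B 2 1) * this - (A 1 0 - B 1 0) * s1 +
      (A 1 0 - B 1 0) * (B 2 2 * B 2 1) ^ 2 * s3
  rw [h10, sub_self, zero_mul, zero_mul, neg_zero, sub_eq_zero] at h20
  ext i j
  fin_cases i <;> fin_cases j <;> assumption

theorem gen (h2 : (1 : R) + 1 = 0) {B : Mt R} (hB : Bᵀ * B = 1)
    (hs : ∀ i j, (B - 1) i j * (B - 1) i j = 0) :
    ∃ e : ℕ → R, (∀ i < 6, e i * e i = 0) ∧ em e hh = B := by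
  let e : ℕ → R := fun n => [(B - 1) 0 0, (B - 1) 1 1, (B - 1) 2 2, (B - 1) 0 1, (B - 1) 0 2,
    (B - 1) 1 2].getD n 0
  have he : ∀ i < 6, e i * e i = 0 := fun i hi => by
    interval_cases i <;> exact hs _ _
  refine ⟨e, he, uniq ?_ hB ?_ ?_ ?_ ?_ ?_ ?_ h2 ?_ ?_ ?_⟩
  · rw [← em_tr, ← em_mul e h2 he, k0, em_id]
  any_goals simp [em, hh, ev, e]
  · have := hs 1 1
    simp at this
    linear_combination this + B 1 1 * h2 - h2
  · have := hs 2 2
    simp at this
    linear_combination this + B 2 2 * h2 - h2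
  · simpa using hs 1 2

def cmm (g a : Mt R) : Mt R := (g * a)ᵀ * (a * g)

theorem five (h2 : (1 : R) + 1 = 0) {B : Mt R} (hB : Bᵀ * B = 1)
    (hs : ∀ i j, (B - 1) i j * (B - 1) i j = 0) :
    (cmm B)^[5] (X R) = 1 ∧ (cmm (X R * B))^[5] (X R) = 1 := by
  obtain ⟨e, he, rfl⟩ := gen h2 hB hs
  have c : ∀ g a, cmm (em e g) (em e a) = em e (g.cm a) := fun g a => by
    simp only [cmm, M9.cm, em_mul e h2 he, em_tr]
  obtain ⟨a1, a2, a3, a4, a5⟩ := k1
  obtain ⟨b0, b1, b2, b3, b4, b5⟩ := k2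
  rw [← em_sw e, ← em_mul e h2 he, b0]
  simp only [Function.iterate_succ_apply, Function.iterate_zero_apply, c, a1, a2, a3, a4, a5, b1,
    b2, b3, b4, b5, em_id, and_self]

theorem XX : X R * X R = 1 := by
  ext i j
  fin_cases i <;> fin_cases j <;> simp [X, Matrix.mul_apply, Fin.sum_univ_three]

def sx (R : Type) [CommRing R] : (Mt R)ˣ := ⟨X R, X R, XX, XX⟩

theorem sx_inv : (sx R)⁻¹ = sx R := rfl

theorem inv_tr {g : (Mt R)ˣ} (h : g.1ᵀ * g.1 = 1) : (g⁻¹).1 = g.1ᵀ :=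
  Units.inv_eq_of_mul_eq_one_left h

def OG (R : Type) [CommRing R] : Subgroup (Mt R)ˣ where
  carrier := {g | g.1ᵀ * g.1 = 1}
  one_mem' := by simp
  mul_mem' := fun {a b} ha hb => by
    show (a.1 * b.1)ᵀ * (a.1 * b.1) = 1
    rw [transpose_mul, mul_assoc, ← mul_assoc a.1ᵀ, ha, one_mul, hb]
  inv_mem' := fun {a} ha => by
    show (a⁻¹).1ᵀ * (a⁻¹).1 = 1
    conv_lhs => rw [inv_tr ha, transpose_transpose, ← inv_tr ha]
    exact a.mul_inv

def XJ (J : Ideal R) : Subgroup (Mt R)ˣ where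
  carrier := {g | g ∈ KJ J ∨ sx R * g ∈ KJ J}
  one_mem' := Or.inl (one_mem _)
  mul_mem' := fun {a b} ha hb => by
    have N : (KJ J).Normal := inferInstance
    rcases ha with ha | ha <;> rcases hb with hb | hb
    · exact Or.inl (mul_mem ha hb)
    · exact Or.inr (by simpa [mul_assoc] using mul_mem (N.conj_mem _ ha (sx R)) hb)
    · exact Or.inr (by simpa [mul_assoc] using mul_mem ha hb)
    · exact Or.inl (by simpa [mul_assoc] using mul_mem (N.mem_comm ha) ((sx_inv (R := R)).symm ▸ hb :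
        (sx R)⁻¹ * b ∈ KJ J))
  inv_mem' := fun {a} ha => by
    have N : (KJ J).Normal := inferInstance
    rcases ha with ha | ha
    · exact Or.inl (inv_mem ha)
    · exact Or.inr (by simpa [sx_inv] using inv_mem (N.mem_comm ha))

theorem mem_K {J : Ideal R} {g : (Mt R)ˣ} : g ∈ KJ J ↔ ∀ i j, (g.1 - 1) i j ∈ J := by
  simpa using mem_KJ (J := J) (g := g) (h := 1)

def In (H : Subgroup (Mt R)ˣ) (u : R) (S : Mt R) : Prop := ∃ g ∈ H, g.1 = 1 + u • S

theorem inv_val {g : (Mt R)ˣ} {u : R} {S : Mt R} (hu : u * u = 0) (h : g.1 = 1 + u • S) :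
    (g⁻¹).1 = 1 - u • S := Units.inv_eq_of_mul_eq_one_left (by
  have : (u • S) * (u • S) = 0 := by rw [smul_mul_smul_comm, hu, zero_smul]
  rw [h]
  generalize u • S = a at *
  calc _ = 1 - a * a := by noncomm_ring
    _ = 1 := by rw [this, sub_zero])

theorem in_comm {H K : Subgroup (Mt R)ˣ} (hn : K ≤ normalizer (H : Set (Mt R)ˣ)) {u v : R}
    {S T : Mt R} (hu : u * u = 0) (hv : v * v = 0) (a : In H u S) (b : In K v T) :
    In H (u * v) (S * T - T * S) := by
  obtain ⟨g, hg, e⟩ := a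
  obtain ⟨h, hh, f⟩ := b
  refine ⟨_, le_normalizer_iff_commutator_le_left.1 hn (commutator_mem_commutator hg hh), ?_⟩
  have a1 : (u • S) * (u • S) = 0 := by rw [smul_mul_smul_comm, hu, zero_smul]
  have a2 : (v • T) * (v • T) = 0 := by rw [smul_mul_smul_comm, hv, zero_smul]
  have a3 : (u • S) * (v • T) * (u • S) = 0 := by
    rw [smul_mul_smul_comm, smul_mul_smul_comm, mul_right_comm, hu, zero_mul, zero_smul]
  have a4 : (v • T) * (u • S) * (v • T) = 0 := by
    rw [smul_mul_smul_comm, smul_mul_smul_comm, mul_right_comm, hv, zero_mul, zero_smul]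
  have a5 : (u * v) • (S * T - T * S) = (u • S) * (v • T) - (v • T) * (u • S) := by
    rw [smul_mul_smul_comm, smul_mul_smul_comm, mul_comm v, smul_sub]
  rw [commutatorElement_def, Units.val_mul, Units.val_mul, Units.val_mul, inv_val hu e,
    inv_val hv f, e, f, a5]
  generalize u • S = a at *
  generalize v • T = b at *
  calc _ = 1 + (a * b - b * a) - a * a * (1 - b) - (1 + a) * (b * b) - a * b * a * (1 - b) +
      b * a * b := by noncomm_ring
    _ = _ := by rw [a1, a2, a3, a4]; noncomm_ring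

def S0 (R : Type) [CommRing R] : Mt R := !![0, 0, 0; 0, 0, 1; 0, 1, 0]
def S1 (R : Type) [CommRing R] : Mt R := !![0, 0, 1; 0, 0, 0; 1, 0, 0]
def S2 (R : Type) [CommRing R] : Mt R := !![0, 1, 0; 1, 0, 0; 0, 0, 0]

def Al (H : Subgroup (Mt R)ˣ) (T : Set R) : Prop :=
  ∀ u ∈ T, In H u (S0 R) ∧ In H u (S1 R) ∧ In H u (S2 R)

theorem al_step (h2 : (1 : R) + 1 = 0) {H K : Subgroup (Mt R)ˣ} {T : Set R}
    (hn : K ≤ normalizer (H : Set (Mt R)ˣ)) (hs : ∀ u ∈ T, u * u = 0)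
    (hc : ∀ u ∈ T, ∀ r, u * r ∈ T) (hx : sx R ∈ H) (h : Al K T) : Al H (T * T * T) := by
  have hm : (-1 : R) = 1 := neg_eq_iff_add_eq_zero.2 h2
  have a : ∀ u ∈ T, In H u (S0 R - S1 R) := fun u hu => by
    obtain ⟨g, hg, e⟩ := (h u hu).2.1
    refine ⟨_, le_normalizer_iff_commutator_le_left.1 hn (commutator_mem_commutator hx hg), ?_⟩
    rw [commutatorElement_def, Units.val_mul, Units.val_mul, Units.val_mul, inv_val (hs u hu) e,
      e, sx_inv]
    have a1 : X R * S1 R * X R = S0 R := by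
      simp only [X, S0, S1, Matrix.mul_fin_three]; simp
    have a2 : (u • S0 R) * (u • S1 R) = 0 := by rw [smul_mul_smul_comm, hs u hu, zero_smul]
    show X R * _ * X R * _ = _
    rw [mul_add, add_mul, mul_one, XX, mul_smul_comm, smul_mul_assoc, a1, smul_sub]
    generalize u • S0 R = a at *
    generalize u • S1 R = b at *
    calc _ = 1 + (a - b) - a * b := by noncomm_ring
      _ = _ := by rw [a2, sub_zero]
  have b : ∀ u ∈ T, ∀ v ∈ T, In H (u * v) (S2 R) := fun u hu v hv => by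
    have := in_comm hn (hs u hu) (hs v hv) (a u hu) (h v hv).2.1
    rwa [show (S0 R - S1 R) * S1 R - S1 R * (S0 R - S1 R) = S2 R by
      ext i j
      fin_cases i <;> fin_cases j <;>
        simp [S2, S0, S1, Matrix.mul_apply, Fin.sum_univ_three, hm]] at this
  rintro _ ⟨_, ⟨u, hu, v, hv, rfl⟩, w, hw, rfl⟩
  have m := hc u hu v
  refine ⟨?_, ?_, b _ m w hw⟩
  · have := in_comm hn (hs _ m) (hs w hw) (b u hu v hv) (h w hw).2.1
    rwa [show S2 R * S1 R - S1 R * S2 R = S0 R by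
      ext i j
      fin_cases i <;> fin_cases j <;>
        simp [S2, S0, S1, Matrix.mul_apply, Fin.sum_univ_three, hm]] at this
  · have := in_comm hn (hs _ m) (hs w hw) (b u hu v hv) (h w hw).1
    rwa [show S2 R * S0 R - S0 R * S2 R = S1 R by
      ext i j
      fin_cases i <;> fin_cases j <;>
        simp [S2, S0, S1, Matrix.mul_apply, Fin.sum_univ_three, hm]] at this

def PP (I : Ideal R) : ℕ → Set R
  | 0 => I
  | k + 1 => PP I k * PP I k * PP I k

theorem pp_cl (I : Ideal R) (k : ℕ) : (∀ u ∈ PP I k, ∀ r, u * r ∈ PP I k) ∧ PP I k ⊆ I ∧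
    Ideal.span (PP I k) = I ^ 3 ^ k := by
  induction k with
  | zero => exact ⟨fun u hu r => I.mul_mem_right r hu, le_rfl, by simp [PP]⟩
  | succ k ih =>
    refine ⟨?_, ?_, ?_⟩
    · rintro _ ⟨p, hp, w, hw, rfl⟩ r
      exact ⟨p, hp, w * r, ih.1 w hw r, (mul_assoc _ _ _).symm⟩
    · rintro _ ⟨p, hp, w, hw, rfl⟩
      exact I.mul_mem_left _ (ih.2.1 hw)
    · rw [PP, ← Ideal.span_mul_span', ← Ideal.span_mul_span', ih.2.2, pow_succ 3, pow_mul]
      ring

def GO (I : Ideal R) : Subgroup (Mt R)ˣ := OG R ⊓ XJ I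

theorem in_top (h2 : (1 : R) + 1 = 0) {I : Ideal R} {u : R} (hI : u ∈ I) (hu : u * u = 0) {S : Mt R}
    (hS : Sᵀ = S) : In (GO I) u S := by
  have a1 : (u • S) * (u • S) = 0 := by rw [smul_mul_smul_comm, hu, zero_smul]
  have a2 : u • S + u • S = 0 := by
    rw [← add_smul, ← mul_two, ← one_add_one_eq_two, h2, mul_zero, zero_smul]
  have a3 : (1 + u • S) * (1 + u • S) = 1 := by
    generalize u • S = a at *
    calc _ = 1 + (a + a) + a * a := by noncomm_ring
      _ = 1 := by rw [a1, a2, add_zero, add_zero]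
  refine ⟨⟨_, _, a3, a3⟩, ⟨?_, Or.inl (mem_K.2 fun i j => ?_)⟩, rfl⟩
  · show (1 + u • S)ᵀ * (1 + u • S) = 1
    rw [transpose_add, transpose_one, transpose_smul, hS, a3]
  · simpa using I.mul_mem_right _ hI

theorem chain (h2 : (1 : R) + 1 = 0) {I : Ideal R} (hI : ∀ u ∈ I, u * u = 0) (J : Ideal R)
    {H : Subgroup (GO I)} (hH : H.IsSubnormal) (hx : sx R ∈ H.map (GO I).subtype ⊔ KJ J) :
    ∃ k, Al (H.map (GO I).subtype ⊔ KJ J) (PP I k) := by
  induction hH with
  | top =>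
    have : ∀ u ∈ I, ∀ S : Mt R, Sᵀ = S → In ((⊤ : Subgroup (GO I)).map (GO I).subtype ⊔ KJ J) u S :=
      fun u hu S hS => by
        obtain ⟨g, hg, e⟩ := in_top h2 hu (hI u hu) hS
        exact ⟨g, mem_sup_left ⟨⟨g, hg⟩, trivial, rfl⟩, e⟩
    refine ⟨0, fun u hu => ⟨this u hu _ ?_, this u hu _ ?_, this u hu _ ?_⟩⟩ <;> ext i j <;>
      fin_cases i <;> fin_cases j <;> rfl
  | step H K hle _ hN ih =>
    obtain ⟨k, hk⟩ := ih (sup_le_sup_right (map_mono hle) _ hx)
    refine ⟨k + 1, al_step h2 (sup_le (le_trans ?_ normalizer_le_normalizer_sup_normal)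
      (le_sup_right.trans le_normalizer)) (fun u hu => hI u ((pp_cl I k).2.1 hu)) (pp_cl I k).1 hx
      hk⟩
    exact (map_mono ((normal_subgroupOf_iff_le_normalizer hle).1 hN)).trans (le_normalizer_map _)

theorem nonsub (h2 : (1 : R) + 1 = 0) {I : Ideal R} (hI : ∀ u ∈ I, u * u = 0) {g : GO I}
    (hg : sx R * g.1 ∈ KJ I) (hH : (zpowers g).IsSubnormal) : ∃ m, I ^ m = ⊥ := by
  obtain ⟨J, j1, j2⟩ := fam_nil (Finset.univ : Finset (Fin 3 × Fin 3))
    (fun p => ((sx R * g.1).1 - 1) p.1 p.2) fun p _ => hI _ (mem_K.1 hg _ _)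
  have j3 : sx R * g.1 ∈ KJ J := mem_K.2 fun i j => j1 (i, j) (Finset.mem_univ _)
  obtain ⟨k, hk⟩ := chain h2 hI J hH (by
    simpa using mul_mem (mem_sup_right j3 : _ ∈ (zpowers g).map (GO I).subtype ⊔ KJ J)
      (mem_sup_left (mem_map_of_mem _ (inv_mem (mem_zpowers g)))))
  have h3 : (zpowers g).map (GO I).subtype ⊔ KJ J ≤ XJ J := by
    refine sup_le ?_ fun _ h => Or.inl h
    rw [MonoidHom.map_zpowers, zpowers_le]
    exact Or.inr j3
  have h4 : I ^ 3 ^ k ≤ J := by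
    rw [← (pp_cl I k).2.2, Ideal.span_le]
    intro u hu
    obtain ⟨a, ha, e⟩ := (hk u hu).2.1
    rcases h3 ha with h | h
    · simpa [e, S1] using mem_K.1 h 0 2
    · have := mem_K.1 h 0 0
      rw [Units.val_mul, e, mul_add, mul_one] at this
      simp [S1, sx, X] at this
      simpa using J.mul_mem_left u this
  exact ⟨_, by rw [pow_mul, eq_bot_iff, ← j2]; exact Ideal.pow_right_mono h4 _⟩

theorem sx_mem (I : Ideal R) : sx R ∈ GO I := by
  refine ⟨?_, Or.inr ?_⟩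
  · show (X R)ᵀ * X R = 1
    rw [show (X R)ᵀ = X R by ext i j; fin_cases i <;> fin_cases j <;> rfl, XX]
  · rw [show sx R * sx R = 1 from Units.ext XX]
    exact one_mem _

theorem engel (h2 : (1 : R) + 1 = 0) {I : Ideal R} (hI : ∀ u ∈ I, u * u = 0) (g : GO I) :
    (fun b => b⁻¹ * (g⁻¹ * b * g))^[5] (⟨sx R, sx_mem I⟩ : GO I) = 1 := by
  have c : ∀ n (a : GO I), ((fun b => b⁻¹ * (g⁻¹ * b * g))^[n] a).1.1 = (cmm g.1.1)^[n] a.1.1 := by
    intro n
    induction n with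
    | zero => intro a; rfl
    | succ n ih =>
      intro a
      rw [Function.iterate_succ_apply, Function.iterate_succ_apply, ih]
      congr 1
      simp only [cmm, Subgroup.coe_mul, Subgroup.coe_inv, Units.val_mul, inv_tr a.2.1, inv_tr g.2.1,
        transpose_mul, mul_assoc]
  refine Subtype.ext (Units.ext ((c 5 _).trans ?_))
  rcases g.2.2 with h | h
  · exact (five h2 g.2.1 fun i j => hI _ (mem_K.1 h i j)).1
  · have := (five h2 (mul_mem (sx_mem I).1 g.2.1) fun i j => hI _ (mem_K.1 h i j)).2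
    rwa [Units.val_mul, ← mul_assoc, show X R * (sx R).1 = 1 from XX, one_mul] at this

end Pool.Agent.H.MP_9682d1_al
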